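import Pool.Agent.Helper1.SP.Defs

/-!
# SP-ADJ: adjoining a root of an integer polynomial to a ring and to its field of fractions

Proof.  `ψ = AdjoinRoot.lift ((AdjoinRoot.of _).comp φ) (AdjoinRoot.root _) _` (or
`AdjoinRoot.map`).  Injective: an element of the source is `mk q` with `degree q < degree g`
(`Polynomial.modByMonic`, the image of `g` is monic of the same degree, or the ring is trivial);
`ψ (mk q) = mk (q.map φ) = 0` means that the monic polynomial `g.map _` divides `q.map φ`, which has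
smaller degree, so `q.map φ = 0` and `q = 0` as `φ` is injective.
Denominators: by `AdjoinRoot.induction_on` and `Polynomial.induction_on'`: sums (take the product
of the two denominators) and monomials (`of z * root ^ k`).
-/

set_option autoImplicit false

namespace Pool.Agent.Helper1.SP

open Polynomial

private theorem Adj_den (A K : Type) [CommRing A] [Field K] (φ : A →+* K)
    (hden : ∀ z : K, ∃ a : A, ∃ n : ℕ, n ≠ 0 ∧ (n : K) * z = φ a) (p : K[X]) :
    ∃ a : A[X], ∃ n : ℕ, n ≠ 0 ∧ (n : K[X]) * p = a.map φ := by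
  induction p using Polynomial.induction_on' with
  | add p q hp hq =>
    obtain ⟨a, n, hn, ha⟩ := hp
    obtain ⟨b, m, hm, hb⟩ := hq
    refine ⟨(m : A[X]) * a + (n : A[X]) * b, n * m, mul_ne_zero hn hm, ?_⟩
    rw [Polynomial.map_add, Polynomial.map_mul, Polynomial.map_mul, Polynomial.map_natCast,
      Polynomial.map_natCast, ← ha, ← hb]
    push_cast
    ring
  | monomial k c =>
    obtain ⟨a, n, hn, ha⟩ := hden c
    refine ⟨monomial k a, n, hn, ?_⟩
    rw [Polynomial.map_monomial, ← ha, ← Polynomial.C_eq_natCast, Polynomial.C_mul_monomial]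


theorem adj_inj (A K : Type) [CommRing A] [Field K] [CharZero K] (φ : A →+* K)
    (hinj : Function.Injective φ)
    (hden : ∀ z : K, ∃ a : A, ∃ n : ℕ, n ≠ 0 ∧ (n : K) * z = φ a)
    (g : ℤ[X]) (hg : g.Monic) :
    ∃ ψ : AdjoinRoot (g.map (Int.castRingHom A)) →+* AdjoinRoot (g.map (Int.castRingHom K)),
      Function.Injective ψ ∧
      ∀ z : AdjoinRoot (g.map (Int.castRingHom K)),
        ∃ a : AdjoinRoot (g.map (Int.castRingHom A)), ∃ n : ℕ, n ≠ 0 ∧
          (n : AdjoinRoot (g.map (Int.castRingHom K))) * z = ψ a := by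
  obtain ⟨gA, hgA⟩ : ∃ gA : A[X], gA = g.map (Int.castRingHom A) := ⟨_, rfl⟩
  obtain ⟨gK, hgK⟩ : ∃ gK : K[X], gK = g.map (Int.castRingHom K) := ⟨_, rfl⟩
  rw [← hgA, ← hgK]
  have hmap : gA.map φ = gK := by
    rw [hgA, hgK, Polynomial.map_map]
    congr 1
    exact RingHom.ext_int _ _
  have hmon : gA.Monic := by
    rw [hgA]
    exact hg.map _
  have hdvd : gK ∣ gA.map φ := by rw [hmap]
  have hψ : ∀ q : A[X], AdjoinRoot.map φ gA gK hdvd (AdjoinRoot.mk gA q) =
      AdjoinRoot.mk gK (q.map φ) := by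
    intro q
    unfold AdjoinRoot.map
    rw [AdjoinRoot.lift_mk, ← AdjoinRoot.aeval_eq, Polynomial.aeval_def, Polynomial.eval₂_map]
    rfl
  refine ⟨AdjoinRoot.map φ gA gK hdvd, ?_, ?_⟩
  · rw [injective_iff_map_eq_zero]
    intro z hz
    obtain ⟨q, rfl⟩ := AdjoinRoot.mk_surjective z
    rw [hψ, AdjoinRoot.mk_eq_zero] at hz
    rw [AdjoinRoot.mk_eq_zero, ← Polynomial.modByMonic_eq_zero_iff_dvd hmon]
    apply Polynomial.map_injective φ hinj
    rw [Polynomial.map_modByMonic φ hmon, hmap, Polynomial.map_zero]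
    rw [Polynomial.modByMonic_eq_zero_iff_dvd (by rw [← hmap]; exact hmon.map φ)]
    exact hz
  · intro z
    obtain ⟨p, rfl⟩ := AdjoinRoot.mk_surjective z
    obtain ⟨a, n, hn, ha⟩ := Adj_den A K φ hden p
    refine ⟨AdjoinRoot.mk gA a, n, hn, ?_⟩
    rw [hψ, ← ha, map_mul, map_natCast]

end Pool.Agent.Helper1.SP
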