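import Mathlib

/-!
# Almost all primes miss many factorial residues: definitions

Project SP (MP_1790eb_nt).
-/

set_option autoImplicit false

namespace Pool.Agent.Helper1.SP

open Polynomial

/-- The polynomial `(X+1)(X+2)...(X+k) - 1`. -/
noncomputable def fk (k : ℕ) : ℤ[X] := (∏ i ∈ Finset.range k, (X + C ((i : ℤ) + 1))) - 1

/-- The number of roots of `g` in `ZMod p`. -/
noncomputable def rho (g : ℤ[X]) (p : ℕ) : ℕ :=
  Nat.card {x : ZMod p // (g.map (Int.castRingHom (ZMod p))).eval x = 0}

/-- The set `V p` of nonzero residues modulo `p` that are factorials. -/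
def V (p : ℕ) : Set (ZMod p) := {x | x ≠ 0 ∧ ∃ n : ℕ, (n.factorial : ZMod p) = x}

/-- `F p` is, for all primes `p`, the number of ring homomorphisms `A → ZMod p`, where `A` is a
ring that is finite over `ℤ`, embedded in a number field `K` of degree `d` such that every element
of `K` is an element of `A` divided by a positive integer. -/
def Rep (F : ℕ → ℕ) (d : ℕ) : Prop :=
  ∃ (A K : Type) (_ : CommRing A) (_ : Field K) (_ : NumberField K) (φ : A →+* K),
    Module.Finite ℤ A ∧ Function.Injective φ ∧
    (∀ z : K, ∃ a : A, ∃ n : ℕ, n ≠ 0 ∧ (n : K) * z = φ a) ∧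
    Module.finrank ℚ K = d ∧ ∀ p : ℕ, p.Prime → Nat.card (A →+* ZMod p) = F p

end Pool.Agent.Helper1.SP
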