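import Mathlib

/-!
# SP-EUL: a product over primes

Proof.  `1 - x ≤ exp (-x)`, so the product over the primes `l ≤ m` is at most
`exp (-(1/2) ∑_{l ≤ m} 1/l)`, and the sum of the reciprocals of the primes diverges
(`Nat.Primes.not_summable_one_div`, or `not_summable_one_div_on_primes`).
-/

set_option autoImplicit false

namespace Pool.Agent.Helper1.SP

open Filter Topology in
theorem small_product (T : ℕ) (ε : ℝ) (hε : 0 < ε) :
    ∃ L : Finset ℕ, (∀ l ∈ L, l.Prime) ∧
      2 ^ T * ∏ l ∈ L, (1 - 1 / (2 * (l : ℝ))) ≤ ε := by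
  classical
  have hns := not_summable_one_div_on_primes
  have hnn : ∀ n : ℕ, 0 ≤ Set.indicator {p : ℕ | p.Prime} (fun n : ℕ => (1 : ℝ) / n) n := by
    intro n
    by_cases h : n ∈ {p : ℕ | p.Prime}
    · rw [Set.indicator_of_mem h]; positivity
    · rw [Set.indicator_of_notMem h]
  have htend := (not_summable_iff_tendsto_nat_atTop_of_nonneg hnn).mp hns
  have hlog : Tendsto (fun n : ℕ => Real.exp (-((1 / 2) *
      ∑ i ∈ Finset.range n, Set.indicator {p : ℕ | p.Prime} (fun n : ℕ => (1 : ℝ) / n) i)))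
      atTop (𝓝 0) := by
    refine Real.tendsto_exp_neg_atTop_nhds_zero.comp ?_
    exact Tendsto.const_mul_atTop (by norm_num) htend
  have hpos : (0 : ℝ) < ε / 2 ^ T := by positivity
  obtain ⟨n, hn⟩ := ((hlog.eventually (gt_mem_nhds hpos))).exists
  refine ⟨(Finset.range n).filter Nat.Prime, fun l hl => (Finset.mem_filter.mp hl).2, ?_⟩
  have h1 : ∏ l ∈ (Finset.range n).filter Nat.Prime, (1 - 1 / (2 * (l : ℝ))) ≤
      ∏ l ∈ (Finset.range n).filter Nat.Prime, Real.exp (-((1 / 2) * ((1 : ℝ) / l))) := by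
    refine Finset.prod_le_prod ?_ ?_
    · intro l hl
      have hl2 : (2 : ℝ) ≤ l := by exact_mod_cast (Finset.mem_filter.mp hl).2.two_le
      have : 1 / (2 * (l : ℝ)) ≤ 1 := by
        rw [div_le_one (by linarith)]; linarith
      linarith
    · intro l hl
      have hl2 : (2 : ℝ) ≤ l := by exact_mod_cast (Finset.mem_filter.mp hl).2.two_le
      have h := Real.add_one_le_exp (-((1 / 2) * ((1 : ℝ) / l)))
      have h2 : 1 / (2 * (l : ℝ)) = (1 / 2) * ((1 : ℝ) / l) := by
        field_simp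
      rw [h2]; linarith
  have h2 : ∏ l ∈ (Finset.range n).filter Nat.Prime, Real.exp (-((1 / 2) * ((1 : ℝ) / l))) =
      Real.exp (-((1 / 2) *
      ∑ i ∈ Finset.range n, Set.indicator {p : ℕ | p.Prime} (fun n : ℕ => (1 : ℝ) / n) i)) := by
    rw [← Real.exp_sum]
    congr 1
    rw [Finset.sum_neg_distrib, ← Finset.mul_sum, Finset.sum_filter]
    congr 2
    all_goals
      try refine Finset.sum_congr rfl fun i _ => ?_
      try by_cases h : Nat.Prime i
      all_goals try simp [Set.indicator, h]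
  rw [h2] at h1
  have h3 := h1.trans hn.le
  calc (2 : ℝ) ^ T * ∏ l ∈ (Finset.range n).filter Nat.Prime, (1 - 1 / (2 * (l : ℝ)))
      ≤ 2 ^ T * (ε / 2 ^ T) := mul_le_mul_of_nonneg_left h3 (by positivity)
    _ = ε := by field_simp

end Pool.Agent.Helper1.SP
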