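import Pool.Agent.Helper1.SP.Defs

/-!
# SP-FACT: roots of `fk l` modulo `p` give coincidences of factorials

Proof.  Let `x` be a root of `fk l` in `ZMod p`, `n = x.val ∈ [0, p)`.  Then
`(n+1)(n+2)...(n+l) = 1` in `ZMod p`, so no factor is divisible by `p`, and `n < p`, hence
`n + l < p`; and `(n + l)! = n! (n+1)...(n+l)` gives `n! = (n+l)!` in `ZMod p`.
Let `R` be the number of `n ∈ [0, p)` with `n! = m!` (mod `p`) for some `m ∈ (n, p)`; these
are the indices that are not the last one with their value, so `R = p - |V p|` (all `n!`,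
`n < p`, are nonzero, and `V p` is the set of the `n!` with `n < p`).  Likewise the number of
`m ∈ [0, p)` with `n! = m!` for some `n < m` is `p - |V p|`.  For every `l ∈ L` with
`rho (fk l) p ≠ 0` choose a pair `(n, n + l)` as above; the pairs for different `l` are different
and all lie in a set with `R^2` elements.  If `p ≤ |V p| + 1 + M` then `R ≤ M + 1`.
`rho_le`: a polynomial of degree `l` over a field has at most `l` roots.
-/

set_option autoImplicit false

namespace Pool.Agent.Helper1.SP

open Polynomial

private theorem fk_eval (l p : ℕ) (x : ZMod p) :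
    ((fk l).map (Int.castRingHom (ZMod p))).eval x =
      (∏ i ∈ Finset.range l, (x + ((i : ZMod p) + 1))) - 1 := by
  unfold fk
  rw [Polynomial.map_sub, Polynomial.map_prod, Polynomial.eval_sub, Polynomial.eval_prod]
  simp

private theorem root_pair (l p : ℕ) (hp : p.Prime) (h : rho (fk l) p ≠ 0) :
    ∃ n : ℕ, n + l < p ∧ (n.factorial : ZMod p) = ((n + l).factorial : ZMod p) := by
  haveI := Fact.mk hp
  unfold rho at h
  have hne : Nonempty {x : ZMod p // ((fk l).map (Int.castRingHom (ZMod p))).eval x = 0} := by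
    by_contra hcon
    rw [not_nonempty_iff] at hcon
    exact h (Nat.card_of_isEmpty)
  obtain ⟨x, hx⟩ := hne
  rw [fk_eval, sub_eq_zero] at hx
  refine ⟨x.val, ?_, ?_⟩
  · by_contra hcon
    push Not at hcon
    have h1 : ((x.val + l).factorial : ZMod p) = (x.val.factorial : ZMod p) := by
      rw [← Nat.factorial_mul_ascFactorial, Nat.ascFactorial_eq_prod_range]
      push_cast
      rw [ZMod.natCast_zmod_val]
      have : ∏ i ∈ Finset.range l, (x + 1 + (i : ZMod p)) = 1 := by
        refine (Finset.prod_congr rfl fun i _ => ?_).trans hx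
        ring
      rw [this, mul_one]
    have h2 : ((x.val + l).factorial : ZMod p) = 0 := by
      rw [ZMod.natCast_eq_zero_iff]
      exact (hp.dvd_factorial).mpr hcon
    rw [h2] at h1
    have h3 := (ZMod.natCast_eq_zero_iff _ _).mp h1.symm
    have h4 := (hp.dvd_factorial).mp h3
    have h5 := ZMod.val_lt x
    omega
  · rw [← Nat.factorial_mul_ascFactorial, Nat.ascFactorial_eq_prod_range]
    push_cast
    rw [ZMod.natCast_zmod_val]
    have : ∏ i ∈ Finset.range l, (x + 1 + (i : ZMod p)) = 1 := by
      refine (Finset.prod_congr rfl fun i _ => ?_).trans hx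
      ring
    rw [this, mul_one]

private theorem V_lt (p : ℕ) (hp : p.Prime) (x : ZMod p) (hx : x ∈ V p) :
    ∃ n : ℕ, n < p ∧ (n.factorial : ZMod p) = x := by
  obtain ⟨hx0, n, hn⟩ := hx
  refine ⟨n, ?_, hn⟩
  by_contra hcon
  push Not at hcon
  apply hx0
  rw [← hn, ZMod.natCast_eq_zero_iff]
  exact (hp.dvd_factorial).mpr hcon

open Classical in
private theorem card_first (p : ℕ) (hp : p.Prime) :
    (V p).ncard + ((Finset.range p).filter (fun n => ∃ m, m < p ∧ n < m ∧
      (n.factorial : ZMod p) = (m.factorial : ZMod p))).card ≤ p := by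
  haveI := Fact.mk hp
  set R := (Finset.range p).filter (fun n => ∃ m, m < p ∧ n < m ∧
      (n.factorial : ZMod p) = (m.factorial : ZMod p)) with hR
  set Q := (Finset.range p).filter (fun n => ¬ ∃ m, m < p ∧ n < m ∧
      (n.factorial : ZMod p) = (m.factorial : ZMod p)) with hQ
  have h1 : R.card + Q.card = p := by
    rw [hR, hQ, Finset.card_filter_add_card_filter_not, Finset.card_range]
  have h2 : (V p).ncard ≤ Q.card := by
    have hsub : V p ⊆ ((Q.image (fun n => (n.factorial : ZMod p)) : Finset (ZMod p)) :
        Set (ZMod p)) := by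
      intro x hx
      obtain ⟨n, hn, hnx⟩ := V_lt p hp x hx
      -- the largest index with value x
      have hne : ((Finset.range p).filter (fun m => (m.factorial : ZMod p) = x)).Nonempty :=
        ⟨n, by simp [hn, hnx]⟩
      obtain ⟨m, hm, hmax⟩ := Finset.exists_max_image _ (fun m => m) hne
      rw [Finset.mem_filter, Finset.mem_range] at hm
      rw [Finset.coe_image, Set.mem_image]
      refine ⟨m, ?_, hm.2⟩
      rw [Finset.mem_coe, hQ, Finset.mem_filter, Finset.mem_range]
      refine ⟨hm.1, ?_⟩
      rintro ⟨k, hk, hmk, hfk⟩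
      have := hmax k (by rw [Finset.mem_filter, Finset.mem_range]; exact ⟨hk, by rw [← hfk]; exact hm.2⟩)
      omega
    calc (V p).ncard ≤ ((Q.image (fun n => (n.factorial : ZMod p)) : Finset (ZMod p)) :
        Set (ZMod p)).ncard := Set.ncard_le_ncard hsub (Finset.finite_toSet _)
      _ = (Q.image (fun n => (n.factorial : ZMod p))).card := Set.ncard_coe_finset _
      _ ≤ Q.card := Finset.card_image_le
  omega

open Classical in
private theorem card_last (p : ℕ) (hp : p.Prime) :
    (V p).ncard + ((Finset.range p).filter (fun n => ∃ m, m < n ∧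
      (n.factorial : ZMod p) = (m.factorial : ZMod p))).card ≤ p := by
  haveI := Fact.mk hp
  set R := (Finset.range p).filter (fun n => ∃ m, m < n ∧
      (n.factorial : ZMod p) = (m.factorial : ZMod p)) with hR
  set Q := (Finset.range p).filter (fun n => ¬ ∃ m, m < n ∧
      (n.factorial : ZMod p) = (m.factorial : ZMod p)) with hQ
  have h1 : R.card + Q.card = p := by
    rw [hR, hQ, Finset.card_filter_add_card_filter_not, Finset.card_range]
  have h2 : (V p).ncard ≤ Q.card := by
    have hsub : V p ⊆ ((Q.image (fun n => (n.factorial : ZMod p)) : Finset (ZMod p)) :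
        Set (ZMod p)) := by
      intro x hx
      obtain ⟨n, hn, hnx⟩ := V_lt p hp x hx
      have hne : ((Finset.range p).filter (fun m => (m.factorial : ZMod p) = x)).Nonempty :=
        ⟨n, by simp [hn, hnx]⟩
      obtain ⟨m, hm, hmin⟩ := Finset.exists_min_image _ (fun m => m) hne
      rw [Finset.mem_filter, Finset.mem_range] at hm
      rw [Finset.coe_image, Set.mem_image]
      refine ⟨m, ?_, hm.2⟩
      rw [Finset.mem_coe, hQ, Finset.mem_filter, Finset.mem_range]
      refine ⟨hm.1, ?_⟩
      rintro ⟨k, hmk, hfk⟩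
      have := hmin k (by rw [Finset.mem_filter, Finset.mem_range]; exact ⟨by omega, by rw [← hfk]; exact hm.2⟩)
      omega
    calc (V p).ncard ≤ ((Q.image (fun n => (n.factorial : ZMod p)) : Finset (ZMod p)) :
        Set (ZMod p)).ncard := Set.ncard_le_ncard hsub (Finset.finite_toSet _)
      _ = (Q.image (fun n => (n.factorial : ZMod p))).card := Set.ncard_coe_finset _
      _ ≤ Q.card := Finset.card_image_le
  omega

theorem few_roots (p M : ℕ) (hp : p.Prime) (hM : p ≤ (V p).ncard + 1 + M) (L : Finset ℕ)
    (hL : ∀ l ∈ L, 1 ≤ l) :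
    (L.filter (fun l => rho (fk l) p ≠ 0)).card ≤ (M + 1) ^ 2 := by
  classical
  have hA := card_first p hp
  have hB := card_last p hp
  set A := (Finset.range p).filter (fun n => ∃ m, m < p ∧ n < m ∧
      (n.factorial : ZMod p) = (m.factorial : ZMod p)) with hAdef
  set B := (Finset.range p).filter (fun n => ∃ m, m < n ∧
      (n.factorial : ZMod p) = (m.factorial : ZMod p)) with hBdef
  have hA' : A.card ≤ M + 1 := by omega
  have hB' : B.card ≤ M + 1 := by omega
  have hch : ∀ l : ℕ, ∃ n : ℕ, rho (fk l) p ≠ 0 →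
      n + l < p ∧ (n.factorial : ZMod p) = ((n + l).factorial : ZMod p) := by
    intro l
    by_cases h : rho (fk l) p ≠ 0
    · obtain ⟨n, hn⟩ := root_pair l p hp h
      exact ⟨n, fun _ => hn⟩
    · exact ⟨0, fun h' => absurd h' h⟩
  choose r hr using hch
  have hinj : (L.filter (fun l => rho (fk l) p ≠ 0)).card ≤ (A ×ˢ B).card := by
    refine Finset.card_le_card_of_injOn (fun l => (r l, r l + l)) ?_ ?_
    · intro l hl
      rw [Finset.mem_coe, Finset.mem_filter] at hl
      obtain ⟨h1, h2⟩ := hr l hl.2
      have hl1 := hL l hl.1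
      simp only [Finset.coe_product, Set.mem_prod, Finset.mem_coe, hAdef, hBdef,
        Finset.mem_filter, Finset.mem_range]
      exact ⟨⟨by omega, r l + l, h1, by omega, h2⟩, ⟨h1, r l, by omega, h2.symm⟩⟩
    · intro a _ b _ hab
      simp only [Prod.mk.injEq] at hab
      obtain ⟨h1, h2⟩ := hab
      omega
  calc (L.filter (fun l => rho (fk l) p ≠ 0)).card ≤ (A ×ˢ B).card := hinj
    _ = A.card * B.card := Finset.card_product _ _
    _ ≤ (M + 1) * (M + 1) := Nat.mul_le_mul hA' hB'
    _ = (M + 1) ^ 2 := by ring

theorem rho_le (p l : ℕ) (hp : p.Prime) (hl : 1 ≤ l) : rho (fk l) p ≤ l := by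
  classical
  haveI := Fact.mk hp
  set P : (ZMod p)[X] := ∏ i ∈ Finset.range l, (X + C ((i : ZMod p) + 1)) with hP
  have hPm : P.Monic := monic_prod_of_monic _ _ fun i _ => monic_X_add_C _
  have hPd : P.natDegree = l := by
    rw [hP, natDegree_prod_of_monic _ _ fun i _ => monic_X_add_C _]
    rw [Finset.sum_congr rfl fun i _ => natDegree_X_add_C _]
    simp
  have hQ : (fk l).map (Int.castRingHom (ZMod p)) = P - 1 := by
    unfold fk
    rw [Polynomial.map_sub, Polynomial.map_prod, Polynomial.map_one]
    simp [hP]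
  have hQd : (P - 1).natDegree = l := by
    rw [Polynomial.natDegree_sub_eq_left_of_natDegree_lt, hPd]
    rw [hPd, Polynomial.natDegree_one]; omega
  have hQ0 : P - 1 ≠ 0 := by
    intro h
    rw [h, Polynomial.natDegree_zero] at hQd
    omega
  unfold rho
  rw [hQ]
  have h1 : Nat.card {x : ZMod p // (P - 1).eval x = 0} ≤ (P - 1).roots.toFinset.card := by
    have hf : Nat.card {x : ZMod p // (P - 1).eval x = 0} =
        ((Finset.univ : Finset (ZMod p)).filter (fun x => (P - 1).eval x = 0)).card := by
      rw [Nat.card_eq_fintype_card, Fintype.card_subtype]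
    rw [hf]
    refine Finset.card_le_card fun x hx => ?_
    rw [Finset.mem_filter] at hx
    rw [Multiset.mem_toFinset, Polynomial.mem_roots hQ0]
    exact hx.2
  calc Nat.card {x : ZMod p // (P - 1).eval x = 0} ≤ (P - 1).roots.toFinset.card := h1
    _ ≤ Multiset.card (P - 1).roots := Multiset.toFinset_card_le _
    _ ≤ (P - 1).natDegree := Polynomial.card_roots' _
    _ = l := hQd

end Pool.Agent.Helper1.SP
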