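import Pool.Agent.Helper1.SP.Defs

/-!
# SP-HOMADJ: homomorphisms from `A[x]/(g)` to `ZMod p`

Proof.  `θ ↦ (θ ∘ of, θ (root))` is a bijection from the homomorphisms
`AdjoinRoot (g.map (Int.castRingHom A)) →+* ZMod p` to the pairs (homomorphism `A →+* ZMod p`, root
of `g` in `ZMod p`), with inverse `AdjoinRoot.lift`; use `Nat.card_congr` and `Nat.card_prod`.
`adj_finite`: `A[x]/(g)` is a finite `A`-module (`Polynomial.Monic.finite_adjoinRoot` or the power
basis `AdjoinRoot.powerBasis'`), so it is finite over `ℤ` (`Module.Finite.trans`).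
-/

set_option autoImplicit false

namespace Pool.Agent.Helper1.SP

open Polynomial

theorem eval2_zmod (A : Type) [CommRing A] (g : ℤ[X]) (p : ℕ) (h : A →+* ZMod p) (x : ZMod p) :
    (g.map (Int.castRingHom A)).eval₂ h x = (g.map (Int.castRingHom (ZMod p))).eval x := by
  rw [Polynomial.eval₂_map, Polynomial.eval_map]
  congr 1
  exact RingHom.ext_int _ _

theorem hom_root (A : Type) [CommRing A] (g : ℤ[X]) (p : ℕ)
    (θ : AdjoinRoot (g.map (Int.castRingHom A)) →+* ZMod p) :
    (g.map (Int.castRingHom (ZMod p))).eval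
      (θ (AdjoinRoot.root (g.map (Int.castRingHom A)))) = 0 := by
  rw [← eval2_zmod A g p (θ.comp (AdjoinRoot.of (g.map (Int.castRingHom A)))),
    ← Polynomial.hom_eval₂, AdjoinRoot.eval₂_root, map_zero]

theorem card_hom_adj (A : Type) [CommRing A] (g : ℤ[X]) (p : ℕ) (hp : p.Prime) :
    Nat.card (AdjoinRoot (g.map (Int.castRingHom A)) →+* ZMod p) =
      Nat.card (A →+* ZMod p) * rho g p := by
  unfold rho
  rw [← Nat.card_prod]
  refine Nat.card_congr (Equiv.ofBijective
    (fun θ => (θ.comp (AdjoinRoot.of (g.map (Int.castRingHom A))),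
      ⟨θ (AdjoinRoot.root (g.map (Int.castRingHom A))), hom_root A g p θ⟩)) ⟨?_, ?_⟩)
  · intro θ θ' h
    have h1 : θ.comp (AdjoinRoot.of (g.map (Int.castRingHom A))) =
        θ'.comp (AdjoinRoot.of (g.map (Int.castRingHom A))) := congrArg Prod.fst h
    have h2 : θ (AdjoinRoot.root (g.map (Int.castRingHom A))) =
        θ' (AdjoinRoot.root (g.map (Int.castRingHom A))) :=
      congrArg (fun z => (z.2 : ZMod p)) h
    refine Ideal.Quotient.ringHom_ext ?_
    refine Polynomial.ringHom_ext' ?_ ?_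
    · exact h1
    · exact h2
  · rintro ⟨h, x, hx⟩
    have hx' : (g.map (Int.castRingHom A)).eval₂ h x = 0 := by
      rw [eval2_zmod]; exact hx
    refine ⟨AdjoinRoot.lift h x hx', Prod.ext ?_ (Subtype.ext ?_)⟩
    · exact AdjoinRoot.lift_comp_of hx'
    · exact AdjoinRoot.lift_root hx'

theorem adj_finite (A : Type) [CommRing A] (hA : Module.Finite ℤ A) (g : ℤ[X]) (hg : g.Monic) :
    Module.Finite ℤ (AdjoinRoot (g.map (Int.castRingHom A))) := by
  have h1 : (g.map (Int.castRingHom A)).Monic := hg.map _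
  have h2 : Module.Finite A (AdjoinRoot (g.map (Int.castRingHom A))) := h1.finite_adjoinRoot
  exact Module.Finite.trans A _

end Pool.Agent.Helper1.SP
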