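import Pool.Agent.Helper1.SP.Defs

/-!
# SP-HOMEXT: homomorphisms from an order and from the ring of integers

Proof.  `φ(A)` is integral over `ℤ` (`A` is finite over `ℤ`), so `φ` factors through an injective
ring homomorphism `j : A → 𝓞 K`.  `𝓞 K` is a finitely generated `ℤ`-module; each generator `w`
has `n w ∈ j(A)` for some `n ≠ 0`, the product `N` of these `n` satisfies `N z ∈ j(A)` for
all `z ∈ 𝓞 K`.  Let `p` be a prime not dividing `N`.  Then the restriction map
`(𝓞 K →+* ZMod p) → (A →+* ZMod p)`, `ψ ↦ ψ ∘ j`, is bijective: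
injective, since `N ψ(z) = ψ(N z) = (ψ ∘ j) (a)` for `j a = N z`, and `N` is invertible modulo `p`;
surjective: for `θ : A →+* ZMod p` put `ψ z = θ(a_z) / N`, where `j a_z = N z` (`a_z` is unique);
it is additive, `ψ 1 = θ(N)/N = 1`, and from `j(a_z a_w) = N z N w = N (N z w) = j (N a_{zw})` one gets
`θ(a_z) θ(a_w) = N θ(a_{zw})`, so `ψ` is multiplicative; `ψ (j a) = θ(N a)/N = θ a`.
-/

set_option autoImplicit false

namespace Pool.Agent.Helper1.SP

open NumberField

/-- abstract form: a subring of finite index -/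
private theorem card_hom_aux (A R : Type) [CommRing A] [CommRing R] (j : A →+* R)
    (hj : Function.Injective j) (N : ℕ) (hN : ∀ z : R, ∃ a : A, j a = (N : R) * z)
    (p : ℕ) (hp : p.Prime) (hpN : ¬ p ∣ N) :
    Nat.card (A →+* ZMod p) = Nat.card (R →+* ZMod p) := by
  have : Fact p.Prime := ⟨hp⟩
  have hN0 : (N : ZMod p) ≠ 0 := by
    intro h
    exact hpN ((ZMod.natCast_eq_zero_iff N p).1 h)
  symm
  refine Nat.card_eq_of_bijective (fun ψ : R →+* ZMod p => ψ.comp j) ⟨?_, ?_⟩
  · intro ψ1 ψ2 h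
    ext z
    obtain ⟨a, ha⟩ := hN z
    have h1 : ψ1 (j a) = ψ2 (j a) := by
      have := congrArg (fun f : A →+* ZMod p => f a) h
      simpa using this
    rw [ha, map_mul, map_mul, map_natCast, map_natCast] at h1
    exact mul_left_cancel₀ hN0 h1
  · intro θ
    choose av hav using hN
    have hadd : ∀ z w, av (z + w) = av z + av w := by
      intro z w
      apply hj
      rw [map_add, hav, hav, hav]
      ring
    have hone : av 1 = (N : A) := by
      apply hj
      rw [hav, map_natCast, mul_one]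
    have hzero : av 0 = 0 := by
      apply hj
      rw [hav, map_zero, mul_zero]
    have hmul : ∀ z w, av z * av w = (N : A) * av (z * w) := by
      intro z w
      apply hj
      rw [map_mul, map_mul, hav, hav, hav, map_natCast]
      ring
    have hjav : ∀ a, av (j a) = (N : A) * a := by
      intro a
      apply hj
      rw [hav, map_mul, map_natCast]
    refine ⟨{ toFun := fun z => θ (av z) * (N : ZMod p)⁻¹
              map_one' := ?_
              map_mul' := ?_
              map_zero' := ?_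
              map_add' := ?_ }, ?_⟩
    · change θ (av 1) * (N : ZMod p)⁻¹ = 1
      rw [hone, map_natCast]
      exact mul_inv_cancel₀ hN0
    · intro z w
      change θ (av (z * w)) * (N : ZMod p)⁻¹ =
        (θ (av z) * (N : ZMod p)⁻¹) * (θ (av w) * (N : ZMod p)⁻¹)
      have h := congrArg θ (hmul z w)
      rw [map_mul, map_mul, map_natCast] at h
      field_simp
      rw [h]
      ring
    · change θ (av 0) * (N : ZMod p)⁻¹ = 0
      rw [hzero, map_zero, zero_mul]
    · intro z w
      change θ (av (z + w)) * (N : ZMod p)⁻¹ = θ (av z) * (N : ZMod p)⁻¹ + θ (av w) * (N : ZMod p)⁻¹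
      rw [hadd, map_add]
      ring
    · ext a
      change θ (av (j a)) * (N : ZMod p)⁻¹ = θ a
      rw [hjav, map_mul, map_natCast]
      field_simp

theorem card_hom_ext (A K : Type) [CommRing A] [Field K] [NumberField K] (φ : A →+* K)
    (hfin : Module.Finite ℤ A) (hinj : Function.Injective φ)
    (hden : ∀ z : K, ∃ a : A, ∃ n : ℕ, n ≠ 0 ∧ (n : K) * z = φ a) :
    ∃ N : ℕ, N ≠ 0 ∧ ∀ p : ℕ, p.Prime → ¬ p ∣ N →
      Nat.card (A →+* ZMod p) = Nat.card (𝓞 K →+* ZMod p) := by
  classical
  have := hfin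
  have hint : ∀ a : A, IsIntegral ℤ (φ a) := by
    intro a
    have h1 : IsIntegral ℤ a := Algebra.IsIntegral.isIntegral a
    exact h1.map φ.toIntAlgHom
  let j : A →+* 𝓞 K :=
    { toFun := fun a => ⟨φ a, hint a⟩
      map_one' := RingOfIntegers.ext φ.map_one
      map_mul' := fun a b => RingOfIntegers.ext (φ.map_mul a b)
      map_zero' := RingOfIntegers.ext φ.map_zero
      map_add' := fun a b => RingOfIntegers.ext (φ.map_add a b) }
  have hjv : ∀ a, ((j a : 𝓞 K) : K) = φ a := fun a => rfl
  have hj : Function.Injective j := by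
    intro a b h
    apply hinj
    rw [← hjv, ← hjv, h]
  have hden' : ∀ z : 𝓞 K, ∃ n : ℕ, n ≠ 0 ∧ ∃ a : A, j a = (n : 𝓞 K) * z := by
    intro z
    obtain ⟨a, n, hn, h⟩ := hden (z : K)
    refine ⟨n, hn, a, ?_⟩
    apply RingOfIntegers.ext
    rw [hjv, ← h]
    simp
  choose nn hnn hnn' using hden'
  obtain ⟨S, hS⟩ := (Module.Finite.fg_top : (⊤ : Submodule ℤ (𝓞 K)).FG)
  refine ⟨∏ w ∈ S, nn w, Finset.prod_ne_zero_iff.2 (fun w _ => hnn w), ?_⟩
  have hall : ∀ z : 𝓞 K, ∃ a : A, j a = ((∏ w ∈ S, nn w : ℕ) : 𝓞 K) * z := by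
    intro z
    have hz : z ∈ Submodule.span ℤ (S : Set (𝓞 K)) := by
      rw [hS]
      trivial
    induction hz using Submodule.span_induction with
    | mem x hx =>
      obtain ⟨a, ha⟩ := hnn' x
      have hx' : x ∈ S := hx
      refine ⟨((∏ w ∈ S.erase x, nn w : ℕ) : A) * a, ?_⟩
      rw [map_mul, map_natCast, ha, ← Finset.mul_prod_erase S nn hx']
      push_cast
      ring
    | zero => exact ⟨0, by simp⟩
    | add x y _ _ hx hy =>
      obtain ⟨a, ha⟩ := hx
      obtain ⟨b, hb⟩ := hy
      refine ⟨a + b, ?_⟩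
      rw [map_add, ha, hb]
      ring
    | smul c x _ hx =>
      obtain ⟨a, ha⟩ := hx
      refine ⟨(c : A) * a, ?_⟩
      rw [map_mul, map_intCast, ha, zsmul_eq_mul]
      ring
  intro p hp hpN
  exact card_hom_aux A (𝓞 K) j hj _ hall p hp hpN

end Pool.Agent.Helper1.SP
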