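import Pool.Agent.Helper1.SP.Defs
import Pool.Agent.Helper83.TW.ADefs

/-!
# SP-HOMID: homomorphisms to `ZMod p` and ideals of norm `p`

Proof.  `φ ↦ ker φ` is a bijection from `𝓞 K →+* ZMod p` to the ideals of norm `p`: a homomorphism
to `ZMod p` is surjective (`ZMod.ringHom_surjective`), so `𝓞 K / ker φ ≃ ZMod p` and the norm is
`p`; every ideal `I` of norm `p` is a kernel (the quotient is a ring with `p` elements, so it is
isomorphic to `ZMod p`: `ZMod.ringEquivOfPrime`, see `exists_hom` in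
`Pool/Agent/Helper83/TW/A6.lean`); two homomorphisms with the same kernel are equal, because they
differ by a ring automorphism of `ZMod p` (for `x` choose an integer `n` with
`φ x = n = φ n`; then `x - n ∈ ker φ = ker ψ`, so `ψ x = n`).
`d1 K p` is the finite set of the ideals of norm `p` (`mem_d1`).
-/

set_option autoImplicit false

namespace Pool.Agent.Helper1.SP

open NumberField Pool.Agent.Helper83.TW

namespace HomId

theorem absNorm_ker (K : Type) [Field K] [NumberField K] (p : ℕ) (φ : 𝓞 K →+* ZMod p) :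
    Ideal.absNorm (RingHom.ker φ) = p := by
  have h1 : Function.Surjective φ := ZMod.ringHom_surjective φ
  have e : (𝓞 K ⧸ RingHom.ker φ) ≃+* ZMod p := RingHom.quotientKerEquivOfSurjective h1
  rw [Ideal.absNorm_apply, Submodule.cardQuot_apply]
  exact (Nat.card_congr e.toEquiv).trans (Nat.card_zmod p)

theorem ker_injective (K : Type) [Field K] [NumberField K] (p : ℕ) (hp : p.Prime)
    (φ ψ : 𝓞 K →+* ZMod p) (h : RingHom.ker φ = RingHom.ker ψ) : φ = ψ := by
  haveI : NeZero p := ⟨hp.ne_zero⟩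
  ext x
  have h1 : φ (((φ x).val : ℕ) : 𝓞 K) = φ x := by
    rw [map_natCast, ZMod.natCast_zmod_val]
  have h2 : x - (((φ x).val : ℕ) : 𝓞 K) ∈ RingHom.ker φ := by
    rw [RingHom.mem_ker, map_sub, h1, sub_self]
  rw [h, RingHom.mem_ker, map_sub, sub_eq_zero, map_natCast, ZMod.natCast_zmod_val] at h2
  exact h2.symm

theorem exists_ker (K : Type) [Field K] [NumberField K] (p : ℕ) (hp : p.Prime)
    (I : Ideal (𝓞 K)) (hI : Ideal.absNorm I = p) :
    ∃ φ : 𝓞 K →+* ZMod p, RingHom.ker φ = I := by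
  classical
  have h1 : Nat.card (𝓞 K ⧸ I) = p := by
    rw [← hI, Ideal.absNorm_apply, Submodule.cardQuot_apply]
  haveI : Finite (𝓞 K ⧸ I) := Nat.finite_of_card_ne_zero (by rw [h1]; exact hp.ne_zero)
  haveI : Fintype (𝓞 K ⧸ I) := Fintype.ofFinite _
  have h2 : Fintype.card (𝓞 K ⧸ I) = p := by rw [← Nat.card_eq_fintype_card, h1]
  let e : ZMod p ≃+* (𝓞 K ⧸ I) := ZMod.ringEquivOfPrime _ hp h2
  refine ⟨(e.symm : (𝓞 K ⧸ I) →+* ZMod p).comp (Ideal.Quotient.mk I), ?_⟩
  rw [RingHom.ker_comp_of_injective _ (by exact e.symm.injective), Ideal.mk_ker]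

end HomId

theorem card_hom_eq (K : Type) [Field K] [NumberField K] (p : ℕ) (hp : p.Prime) :
    Nat.card (𝓞 K →+* ZMod p) = (d1 K p).card := by
  classical
  have hb : Function.Bijective (fun φ : 𝓞 K →+* ZMod p =>
      (⟨RingHom.ker φ, (mem_d1 hp.pos).mpr (HomId.absNorm_ker K p φ)⟩ : ↥(d1 K p))) := by
    constructor
    · intro φ ψ h
      exact HomId.ker_injective K p hp φ ψ (congrArg Subtype.val h)
    · rintro ⟨I, hI⟩
      obtain ⟨φ, hφ⟩ := HomId.exists_ker K p hp I ((mem_d1 hp.pos).mp hI)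
      exact ⟨φ, Subtype.ext hφ⟩
  rw [Nat.card_congr (Equiv.ofBijective _ hb), Nat.card_eq_fintype_card, Fintype.card_coe]

end Pool.Agent.Helper1.SP
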