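import Pool.Agent.Helper1.SP.Defs

/-!
# SP-IRR: the polynomials `(X+1)...(X+k) - 1` are irreducible

Proof.  `fk k` is monic of degree `k` (`k ≥ 1`).  By Gauss' lemma
(`Polynomial.Monic.irreducible_iff_irreducible_map_fraction_map`) it is enough to show that it is
irreducible over `ℤ`; by `Polynomial.Monic.irreducible_iff'` suppose `fk k = f * g` with `f, g`
monic and different from `1`, hence of degree between `1` and `k - 1`.  For `j = 1, ..., k` one has
`f(-j) g(-j) = fk(-j) = -1`, so `f(-j) + g(-j) = 0`.  So `f + g` has `k` distinct roots, while its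
degree is `< k` and it is not zero (its leading coefficient is `1` or `2`); contradiction.
-/

set_option autoImplicit false

namespace Pool.Agent.Helper1.SP

open Polynomial

private theorem prod_monic (k : ℕ) :
    (∏ i ∈ Finset.range k, (X + C ((i : ℤ) + 1)) : ℤ[X]).Monic :=
  monic_prod_of_monic _ _ fun _ _ => monic_X_add_C _

private theorem prod_natDegree (k : ℕ) :
    (∏ i ∈ Finset.range k, (X + C ((i : ℤ) + 1)) : ℤ[X]).natDegree = k := by
  rw [natDegree_prod_of_monic _ _ fun _ _ => monic_X_add_C _]
  simp only [natDegree_X_add_C, Finset.sum_const, Finset.card_range, smul_eq_mul, mul_one]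

theorem fk_monic (k : ℕ) (hk : 1 ≤ k) : (fk k).Monic := by
  unfold fk
  refine (prod_monic k).sub_of_left ?_
  rw [degree_eq_natDegree (prod_monic k).ne_zero, prod_natDegree, degree_one]
  exact_mod_cast hk

theorem fk_natDegree (k : ℕ) : (fk k).natDegree = k := by
  rcases Nat.eq_zero_or_pos k with rfl | hk
  · simp [fk]
  · unfold fk
    rw [natDegree_sub_eq_left_of_natDegree_lt, prod_natDegree]
    rw [natDegree_one, prod_natDegree]
    exact hk

private theorem fk_eval (k j : ℕ) (hj : j < k) : (fk k).eval (-((j : ℤ) + 1)) = -1 := by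
  unfold fk
  rw [eval_sub, eval_prod, Finset.prod_eq_zero (Finset.mem_range.2 hj)]
  · simp
  · simp

theorem fk_irr (k : ℕ) (hk : 1 ≤ k) : Irreducible ((fk k).map (Int.castRingHom ℚ)) := by
  have hm := fk_monic k hk
  have h1 : fk k ≠ 1 := by
    intro h
    have := fk_natDegree k
    rw [h, natDegree_one] at this
    omega
  have key : Irreducible (fk k) := by
    rw [irreducible_of_monic hm h1]
    intro f g hf hg hfg
    by_contra hne
    push Not at hne
    obtain ⟨hf1, hg1⟩ := hne
    have hdf : 0 < f.natDegree := by
      rcases Nat.eq_zero_or_pos f.natDegree with h | h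
      · exact absurd (hf.natDegree_eq_zero.1 h) hf1
      · exact h
    have hdg : 0 < g.natDegree := by
      rcases Nat.eq_zero_or_pos g.natDegree with h | h
      · exact absurd (hg.natDegree_eq_zero.1 h) hg1
      · exact h
    have hsum : f.natDegree + g.natDegree = k := by
      rw [← hf.natDegree_mul hg, hfg, fk_natDegree]
    have hev : ∀ j < k, (f + g).eval (-((j : ℤ) + 1)) = 0 := by
      intro j hj
      have h := fk_eval k j hj
      rw [← hfg, eval_mul] at h
      rw [eval_add]
      rcases Int.eq_one_or_neg_one_of_mul_eq_neg_one' h with ⟨h2, h3⟩ | ⟨h2, h3⟩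
      · rw [h2, h3]; norm_num
      · rw [h2, h3]; norm_num
    have hzero : f + g = 0 := by
      by_contra h0
      have hsub : (Finset.univ.image fun j : Fin k => (-((j : ℤ) + 1))) ⊆ (f + g).roots.toFinset := by
        intro x hx
        obtain ⟨j, -, rfl⟩ := Finset.mem_image.1 hx
        rw [Multiset.mem_toFinset, mem_roots h0]
        exact hev j j.2
      have hc := Finset.card_le_card hsub
      rw [Finset.card_image_of_injective _ (fun a b hab => by
        apply Fin.ext
        have : (-((a : ℕ) + 1 : ℤ)) = -((b : ℕ) + 1 : ℤ) := hab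
        omega), Finset.card_univ, Fintype.card_fin] at hc
      have h2 := (f + g).roots.toFinset_card_le
      have h3 := (f + g).card_roots'
      have h4 := natDegree_add_le f g
      have h5 : max f.natDegree g.natDegree < k := by
        rw [max_lt_iff]; omega
      omega
    have hg' : g = -f := by
      rw [eq_neg_iff_add_eq_zero, add_comm]; exact hzero
    have hlc : g.leadingCoeff = -f.leadingCoeff := by rw [hg', leadingCoeff_neg]
    rw [hg.leadingCoeff, hf.leadingCoeff] at hlc
    norm_num at hlc
  have := (hm.irreducible_iff_irreducible_map_fraction_map (K := ℚ)).1 key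
  simpa using this

end Pool.Agent.Helper1.SP
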