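import Pool.Agent.Helper1.SP.Defs

/-!
# SP-IRRK: irreducibility over a number field of coprime degree

Proof.  Let `h` be an irreducible factor of `g.map (algebraMap ℚ K)` in `K[X]` (`g` is not
constant), `L = AdjoinRoot h`, `β` its root, so `[L : ℚ] = [K : ℚ] * natDegree h`.  `β` is a root
of `g`, so its minimal polynomial over `ℚ` is `g` up to a constant and
`natDegree g = natDegree (minpoly ℚ β) = [ℚ(β) : ℚ]` divides `[L : ℚ]`
(`minpoly.degree_dvd` / `IntermediateField.finrank`).  As `natDegree g` is coprime to `[K : ℚ]`, it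
divides `natDegree h`, so `natDegree h = natDegree g` and `g.map _` is `h` times a constant.
`adj_finrank`: for `g` monic and irreducible over `K`, the field `AdjoinRoot (g.map _)` has degree
`[K : ℚ] * natDegree g` over `ℚ` (`AdjoinRoot.powerBasis`, `Module.finrank_mul_finrank`).
-/

set_option autoImplicit false

namespace Pool.Agent.Helper1.SP

open Polynomial

private theorem adj_aux (K : Type) [Field K] [NumberField K] (h : K[X])
    [hirr : Fact (Irreducible h)] :
    ∃ _ : NumberField (AdjoinRoot h),
      Module.finrank ℚ (AdjoinRoot h) = Module.finrank ℚ K * h.natDegree := by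
  have h0 : h ≠ 0 := hirr.out.ne_zero
  haveI hc : CharZero (AdjoinRoot h) :=
    charZero_of_injective_algebraMap (algebraMap K (AdjoinRoot h)).injective
  haveI hst : IsScalarTower ℚ K (AdjoinRoot h) :=
    IsScalarTower.of_algebraMap_eq (fun x => by simp)
  haveI hfin : Module.Finite K (AdjoinRoot h) := (AdjoinRoot.powerBasis h0).finite
  haveI hfin2 : FiniteDimensional ℚ (AdjoinRoot h) := Module.Finite.trans K (AdjoinRoot h)
  refine ⟨⟨⟩, ?_⟩
  rw [← Module.finrank_mul_finrank ℚ K (AdjoinRoot h), (AdjoinRoot.powerBasis h0).finrank,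
    AdjoinRoot.powerBasis_dim]

theorem irr_of_coprime (K : Type) [Field K] [NumberField K] (g : ℤ[X])
    (hirr : Irreducible (g.map (Int.castRingHom ℚ)))
    (hco : Nat.Coprime (Module.finrank ℚ K) (g.map (Int.castRingHom ℚ)).natDegree) :
    Irreducible (g.map (Int.castRingHom K)) := by
  set q : ℚ[X] := g.map (Int.castRingHom ℚ) with hq
  have hP : g.map (Int.castRingHom K) = q.map (algebraMap ℚ K) := by
    rw [hq, Polynomial.map_map]
    congr 1
    exact Subsingleton.elim _ _
  rw [hP]
  have hn : 0 < q.natDegree := hirr.natDegree_pos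
  have hnP : (q.map (algebraMap ℚ K)).natDegree = q.natDegree :=
    Polynomial.natDegree_map _
  have hP0 : q.map (algebraMap ℚ K) ≠ 0 :=
    (Polynomial.map_ne_zero_iff (algebraMap ℚ K).injective).mpr hirr.ne_zero
  obtain ⟨h, hh, hdvd⟩ := Polynomial.exists_irreducible_of_natDegree_pos
    (f := q.map (algebraMap ℚ K)) (by rw [hnP]; exact hn)
  haveI hF : Fact (Irreducible h) := ⟨hh⟩
  obtain ⟨hNF, hrank⟩ := adj_aux K h
  haveI := hNF
  haveI hst : IsScalarTower ℚ K (AdjoinRoot h) :=
    IsScalarTower.of_algebraMap_eq (fun x => by simp)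
  -- the root of `h` is a root of `q`
  have hroot : aeval (AdjoinRoot.root h) q = 0 := by
    have h1 : aeval (AdjoinRoot.root h) (q.map (algebraMap ℚ K)) = 0 := by
      rw [AdjoinRoot.aeval_eq, AdjoinRoot.mk_eq_zero]
      exact hdvd
    rwa [Polynomial.aeval_map_algebraMap] at h1
  have hmin := minpoly.eq_of_irreducible hirr hroot
  have hdeg : (minpoly ℚ (AdjoinRoot.root h)).natDegree = q.natDegree := by
    rw [← hmin, Polynomial.natDegree_mul_C]
    exact inv_ne_zero (Polynomial.leadingCoeff_ne_zero.mpr hirr.ne_zero)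
  have hint : IsIntegral ℚ (AdjoinRoot.root h) := IsIntegral.of_finite ℚ _
  have hd := minpoly.degree_dvd hint
  rw [hdeg, hrank] at hd
  have hd2 : q.natDegree ∣ h.natDegree := hco.symm.dvd_of_dvd_mul_left hd
  have hhn : 0 < h.natDegree := hh.natDegree_pos
  have hle : q.natDegree ≤ h.natDegree := Nat.le_of_dvd hhn hd2
  have hass : Associated h (q.map (algebraMap ℚ K)) :=
    Polynomial.associated_of_dvd_of_natDegree_le hdvd hP0 (by rw [hnP]; exact hle)
  exact hass.irreducible hh

theorem adj_numberField (K : Type) [Field K] [NumberField K] (g : ℤ[X]) (hg : g.Monic)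
    [hirr : Fact (Irreducible (g.map (Int.castRingHom K)))] :
    ∃ _ : NumberField (AdjoinRoot (g.map (Int.castRingHom K))),
      Module.finrank ℚ (AdjoinRoot (g.map (Int.castRingHom K))) =
        Module.finrank ℚ K * g.natDegree := by
  obtain ⟨hNF, hrank⟩ := adj_aux K (g.map (Int.castRingHom K))
  refine ⟨hNF, ?_⟩
  rw [hrank, hg.natDegree_map]

end Pool.Agent.Helper1.SP
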