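import Pool.Agent.Helper83.TW.A1

/-!
# SP-UP: Mertens for primes of degree one of a number field, upper bound

Proof.  Let `A(n) = card (idl K n)` be the number of nonzero ideals of norm `≤ n`.
(1) For every nonzero ideal `I`, `log absNorm I ≥ sum of log absNorm Q` over the set of all
`Q ∈ d1 K p`, `p ≤ n` prime, that divide `I`.
(2) Sum over `I ∈ idl K n` and exchange: for `Q ∈ d1 K p` the ideals `I ∈ idl K n` divisible by `Q`
are at least `A(n / p)` in number (`J ↦ Q * J` is injective).  So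
`∑_{p ≤ n} card (d1 K p) * log p * A(n / p) ≤ ∑_{I ∈ idl K n} log absNorm I ≤ A(n) log n`.
(3) `idl_count`, applied to `n = B * m` with a large constant `B`.
-/

set_option autoImplicit false

namespace Pool.Agent.Helper1.SP

open NumberField Pool.Agent.Helper83.TW

open Classical in
private theorem up1 (K : Type) [Field K] [NumberField K] (n : ℕ) (I : Ideal (𝓞 K))
    (hI : I ≠ ⊥) :
    ∑ p ∈ prm 0 n, ∑ Q ∈ (d1 K p).filter (fun Q => Q ∣ I), Real.log (p : ℝ) ≤
      Real.log (Ideal.absNorm I : ℝ) := by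
  set T : Finset (Ideal (𝓞 K)) :=
    (prm 0 n).biUnion (fun p => (d1 K p).filter (fun Q => Q ∣ I)) with hT
  have hmem : ∀ Q ∈ T, ∃ p : ℕ, p.Prime ∧ Ideal.absNorm Q = p ∧ Q ∣ I := by
    intro Q hQ
    rw [hT, Finset.mem_biUnion] at hQ
    obtain ⟨p, hp, hQ⟩ := hQ
    rw [Finset.mem_filter, mem_d1 (mem_prm.1 hp).2.2.pos] at hQ
    exact ⟨p, (mem_prm.1 hp).2.2, hQ.1, hQ.2⟩
  have h1 : ∑ p ∈ prm 0 n, ∑ Q ∈ (d1 K p).filter (fun Q => Q ∣ I), Real.log (p : ℝ) =
      ∑ Q ∈ T, Real.log (Ideal.absNorm Q : ℝ) := by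
    rw [hT, Finset.sum_biUnion]
    · refine Finset.sum_congr rfl fun p hp => Finset.sum_congr rfl fun Q hQ => ?_
      rw [Finset.mem_filter, mem_d1 (mem_prm.1 hp).2.2.pos] at hQ
      rw [hQ.1]
    · intro p hp q hq hpq
      rw [Function.onFun, Finset.disjoint_left]
      intro Q hQ hQ'
      rw [Finset.mem_filter, mem_d1 (mem_prm.1 hp).2.2.pos] at hQ
      rw [Finset.mem_filter, mem_d1 (mem_prm.1 hq).2.2.pos] at hQ'
      exact hpq (hQ.1.symm.trans hQ'.1)
  rw [h1]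
  have hdvd : (∏ Q ∈ T, Q) ∣ I := by
    apply Finset.prod_primes_dvd
    · intro Q hQ
      obtain ⟨p, hp, hQ, -⟩ := hmem Q hQ
      have h2 : Q.IsPrime := Ideal.isPrime_of_irreducible_absNorm (hQ ▸ hp.prime.irreducible)
      refine Ideal.prime_of_isPrime ?_ h2
      rintro rfl
      rw [Ideal.absNorm_bot] at hQ
      exact hp.ne_zero hQ.symm
    · intro Q hQ
      obtain ⟨p, hp, -, hQ⟩ := hmem Q hQ
      exact hQ
  have h3 : Ideal.absNorm (∏ Q ∈ T, Q) ∣ Ideal.absNorm I :=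
    Ideal.absNorm_dvd_absNorm_of_le (Ideal.le_of_dvd hdvd)
  rw [map_prod] at h3
  have hI0 : Ideal.absNorm I ≠ 0 := by
    rw [Ne, Ideal.absNorm_eq_zero_iff]
    exact hI
  have h4 := Nat.le_of_dvd (Nat.pos_of_ne_zero hI0) h3
  have h5 : ∀ Q ∈ T, (Ideal.absNorm Q : ℝ) ≠ 0 := by
    intro Q hQ
    obtain ⟨p, hp, hQ, -⟩ := hmem Q hQ
    rw [hQ]
    exact_mod_cast hp.ne_zero
  rw [← Real.log_prod h5]
  apply Real.log_le_log
  · refine Finset.prod_pos fun Q hQ => ?_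
    exact lt_of_le_of_ne (Nat.cast_nonneg _) (h5 Q hQ).symm
  · exact_mod_cast h4

open Classical in
private theorem up2 (K : Type) [Field K] [NumberField K] (n p : ℕ) (hp : p.Prime)
    (Q : Ideal (𝓞 K)) (hQ : Q ∈ d1 K p) :
    (idl K (n / p)).card ≤ ((idl K n).filter (fun I => Q ∣ I)).card := by
  rw [mem_d1 hp.pos] at hQ
  have hQ0 : Q ≠ 0 := by
    rintro rfl
    rw [Ideal.zero_eq_bot, Ideal.absNorm_bot] at hQ
    exact hp.ne_zero hQ.symm
  refine Finset.card_le_card_of_injOn (fun J => Q * J) ?_ ?_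
  · intro J hJ
    rw [Finset.mem_coe, mem_idl] at hJ
    rw [Finset.mem_coe, Finset.mem_filter, mem_idl]
    refine ⟨⟨?_, mul_ne_zero hQ0 hJ.2⟩, dvd_mul_right _ _⟩
    rw [map_mul, hQ]
    exact (Nat.mul_le_mul_left p hJ.1).trans (Nat.mul_div_le n p)
  · intro J _ J' _ h
    exact mul_left_cancel₀ hQ0 h

private theorem up3 (K : Type) [Field K] [NumberField K] (n : ℕ) :
    ∑ p ∈ prm 0 n, ((d1 K p).card : ℝ) * Real.log (p : ℝ) * ((idl K (n / p)).card : ℝ) ≤
      ((idl K n).card : ℝ) * Real.log (n : ℝ) := by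
  classical
  have h1 : ∑ I ∈ idl K n, ∑ p ∈ prm 0 n, ∑ Q ∈ (d1 K p).filter (fun Q => Q ∣ I),
      Real.log (p : ℝ) ≤ ∑ I ∈ idl K n, Real.log (n : ℝ) := by
    refine Finset.sum_le_sum fun I hI => ?_
    rw [mem_idl] at hI
    refine (up1 K n I hI.2).trans ?_
    have h0 : 0 < Ideal.absNorm I := by
      rw [Nat.pos_iff_ne_zero, Ne, Ideal.absNorm_eq_zero_iff]
      exact hI.2
    exact Real.log_le_log (by exact_mod_cast h0) (by exact_mod_cast hI.1)
  rw [Finset.sum_const, nsmul_eq_mul] at h1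
  refine le_trans ?_ h1
  rw [Finset.sum_comm]
  refine Finset.sum_le_sum fun p hp => ?_
  have hpp := (mem_prm.1 hp).2.2
  have h2 : ∑ I ∈ idl K n, ∑ Q ∈ (d1 K p).filter (fun Q => Q ∣ I), Real.log (p : ℝ) =
      ∑ Q ∈ d1 K p, ∑ I ∈ (idl K n).filter (fun I => Q ∣ I), Real.log (p : ℝ) := by
    simp_rw [Finset.sum_filter]
    rw [Finset.sum_comm]
  rw [h2]
  have h3 : ((d1 K p).card : ℝ) * Real.log (p : ℝ) * ((idl K (n / p)).card : ℝ) =
      ∑ Q ∈ d1 K p, ((idl K (n / p)).card : ℝ) * Real.log (p : ℝ) := by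
    rw [Finset.sum_const, nsmul_eq_mul]
    ring
  rw [h3]
  refine Finset.sum_le_sum fun Q hQ => ?_
  rw [Finset.sum_const, nsmul_eq_mul]
  refine mul_le_mul_of_nonneg_right ?_ (Real.log_natCast_nonneg p)
  exact_mod_cast up2 K n p hpp Q hQ

theorem mertens_up (K : Type) [Field K] [NumberField K] :
    ∀ ε : ℝ, 0 < ε → ∃ n₀ : ℕ, ∀ n : ℕ, n₀ ≤ n →
      ∑ p ∈ prm 0 n, ((d1 K p).card : ℝ) * Real.log (p : ℝ) / (p : ℝ) ≤
        (1 + ε) * Real.log n := by
  intro ε hε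
  obtain ⟨κ, hκ, hcount⟩ := idl_count K
  set η : ℝ := min ε 1 / 8 with hη
  have hη0 : 0 < η := by positivity
  have hη1 : η ≤ ε / 8 := by
    rw [hη]; linarith [min_le_left ε 1]
  have hη2 : η ≤ 1 / 8 := by
    rw [hη]; linarith [min_le_right ε 1]
  obtain ⟨n₁, hn₁⟩ := hcount (κ * η) (by positivity)
  obtain ⟨B₀, hB₀⟩ := exists_nat_gt (1 / η)
  set B : ℕ := n₁ + B₀ + 1 with hB
  have hB1 : (1 : ℝ) ≤ η * B := by
    have h1 : (1 : ℝ) / η < B := by
      rw [hB]; push_cast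
      have : (0 : ℝ) ≤ n₁ := Nat.cast_nonneg _
      linarith
    rw [div_lt_iff₀ hη0] at h1
    linarith
  have hBpos : (0 : ℝ) < B := by
    rw [hB]; positivity
  have hBpos' : 0 < B := by
    rw [hB]; omega
  obtain ⟨n₂, hn₂⟩ := Filter.eventually_atTop.mp
    (((Real.tendsto_log_atTop.comp tendsto_natCast_atTop_atTop).const_mul_atTop hη0).eventually_ge_atTop
      (Real.log (B : ℝ)))
  refine ⟨max n₂ 1, fun m hm => ?_⟩
  have hm1 : 1 ≤ m := (le_max_right _ _).trans hm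
  have hm0 : (0 : ℝ) < m := by exact_mod_cast hm1
  have hlogB := hn₂ m ((le_max_left _ _).trans hm)
  simp only [Function.comp_apply] at hlogB
  have hlogm : 0 ≤ Real.log (m : ℝ) := Real.log_natCast_nonneg m
  set n : ℕ := B * m with hn
  have hnn : n₁ ≤ n := by
    have : B * 1 ≤ B * m := Nat.mul_le_mul_left B hm1
    omega
  have hnpos : (0 : ℝ) < n := by
    rw [hn]; push_cast; positivity
  have h1 := up3 K n
  have h2 := (hn₁ n hnn).2
  have hmn : m ≤ n := by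
    rw [hn]; exact Nat.le_mul_of_pos_left m hBpos'
  have hlogn : Real.log (n : ℝ) = Real.log (B : ℝ) + Real.log (m : ℝ) := by
    rw [hn]; push_cast
    exact Real.log_mul hBpos.ne' hm0.ne'
  -- lower bound of each term with `p ≤ m`
  have h3 : ∀ p ∈ prm 0 m, κ * (1 - η) * (1 - η) * n *
      (((d1 K p).card : ℝ) * Real.log (p : ℝ) / (p : ℝ)) ≤
      ((d1 K p).card : ℝ) * Real.log (p : ℝ) * ((idl K (n / p)).card : ℝ) := by
    intro p hp
    have hp' := mem_prm.1 hp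
    have hp0 : (0 : ℝ) < p := by exact_mod_cast hp'.1
    have hBp : B ≤ n / p := by
      rw [Nat.le_div_iff_mul_le hp'.1, hn]
      exact Nat.mul_le_mul_left B hp'.2.1
    have h4 := (hn₁ (n / p) (by omega)).1
    have h5 : ((n : ℝ) / p) - 1 ≤ ((n / p : ℕ) : ℝ) := by
      have := Nat.lt_div_mul_add (a := n) hp'.1
      have h6 : (n : ℝ) < ((n / p : ℕ) : ℝ) * p + p := by exact_mod_cast this
      rw [sub_le_iff_le_add, div_le_iff₀ hp0]
      linarith
    have h6 : (B : ℝ) ≤ (n : ℝ) / p := by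
      rw [le_div_iff₀ hp0, hn]
      push_cast
      exact mul_le_mul_of_nonneg_left (by exact_mod_cast hp'.2.1) hBpos.le
    have h7 : (1 - η) * ((n : ℝ) / p) ≤ ((n / p : ℕ) : ℝ) := by
      have : 1 ≤ η * ((n : ℝ) / p) := hB1.trans (mul_le_mul_of_nonneg_left h6 hη0.le)
      linarith
    have h8 : κ * (1 - η) * ((1 - η) * ((n : ℝ) / p)) ≤ ((idl K (n / p)).card : ℝ) := by
      refine le_trans ?_ h4
      have h9 : κ - κ * η = κ * (1 - η) := by ring
      rw [h9]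
      exact mul_le_mul_of_nonneg_left h7 (mul_nonneg hκ.le (by linarith))
    have h10 : (0 : ℝ) ≤ ((d1 K p).card : ℝ) * Real.log (p : ℝ) :=
      mul_nonneg (Nat.cast_nonneg _) (Real.log_natCast_nonneg p)
    calc κ * (1 - η) * (1 - η) * n * (((d1 K p).card : ℝ) * Real.log (p : ℝ) / (p : ℝ))
        = ((d1 K p).card : ℝ) * Real.log (p : ℝ) * (κ * (1 - η) * ((1 - η) * ((n : ℝ) / p))) := by
          ring
      _ ≤ _ := mul_le_mul_of_nonneg_left h8 h10
  have hsub : prm 0 m ⊆ prm 0 n := by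
    intro p hp
    rw [mem_prm] at hp ⊢
    exact ⟨hp.1, hp.2.1.trans hmn, hp.2.2⟩
  have h4 : κ * (1 - η) * (1 - η) * n *
      ∑ p ∈ prm 0 m, ((d1 K p).card : ℝ) * Real.log (p : ℝ) / (p : ℝ) ≤
      (κ + κ * η) * n * ((1 + η) * Real.log (m : ℝ)) := by
    rw [Finset.mul_sum]
    refine (Finset.sum_le_sum h3).trans ?_
    refine (Finset.sum_le_sum_of_subset_of_nonneg hsub ?_).trans (h1.trans ?_)
    · intro p _ _
      exact mul_nonneg (mul_nonneg (Nat.cast_nonneg _) (Real.log_natCast_nonneg p))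
        (Nat.cast_nonneg _)
    · refine mul_le_mul h2 ?_ (Real.log_natCast_nonneg n) (by positivity)
      rw [hlogn]
      linarith
  set Sg : ℝ := ∑ p ∈ prm 0 m, ((d1 K p).card : ℝ) * Real.log (p : ℝ) / (p : ℝ) with hS
  have h5 : (1 - η) * (1 - η) * Sg ≤ (1 + η) * ((1 + η) * Real.log (m : ℝ)) := by
    have h6 : (κ * n) * ((1 - η) * (1 - η) * Sg) ≤
        (κ * n) * ((1 + η) * ((1 + η) * Real.log (m : ℝ))) := by
      calc (κ * n) * ((1 - η) * (1 - η) * Sg) = κ * (1 - η) * (1 - η) * n * Sg := by ring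
        _ ≤ (κ + κ * η) * n * ((1 + η) * Real.log (m : ℝ)) := h4
        _ = _ := by ring
    exact le_of_mul_le_mul_left h6 (by positivity)
  have h6 : (1 + η) * (1 + η) ≤ (1 - η) * (1 - η) * (1 + ε) := by
    have : (0 : ℝ) ≤ η * ε := by positivity
    have h7 : η * ε ≤ ε / 8 := by
      calc η * ε ≤ (1 / 8) * ε := mul_le_mul_of_nonneg_right hη2 hε.le
        _ = ε / 8 := by ring
    nlinarith
  have h7 : 0 < (1 - η) * (1 - η) := by
    have : 0 < 1 - η := by linarith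
    positivity
  have h8 : (1 - η) * (1 - η) * Sg ≤ (1 - η) * (1 - η) * ((1 + ε) * Real.log (m : ℝ)) := by
    refine h5.trans ?_
    calc (1 + η) * ((1 + η) * Real.log (m : ℝ)) = (1 + η) * (1 + η) * Real.log (m : ℝ) := by ring
      _ ≤ (1 - η) * (1 - η) * (1 + ε) * Real.log (m : ℝ) :=
          mul_le_mul_of_nonneg_right h6 hlogm
      _ = _ := by ring
  exact le_of_mul_le_mul_left h8 h7

end Pool.Agent.Helper1.SP
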