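import Pool.Agent.Helper1.SP.HomId
import Pool.Agent.Helper1.SP.HomExt
import Pool.Agent.Helper1.SP.Up
import Pool.Agent.Helper83.TW.A5

/-!
# SP-MERT: the mean value of a represented function is one

Proof.  By `card_hom_ext` and `card_hom_eq`, `F p = (d1 K p).card` for all primes `p` not dividing
some `N ≠ 0`.  So the sum differs from the sum of `mertens_d1`, `mertens_up` by a bounded amount
(at most the sums over the finitely many primes `p ∣ N`), which is `≤ ε log n` for large `n`.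
-/

set_option autoImplicit false

namespace Pool.Agent.Helper1.SP

open NumberField Pool.Agent.Helper83.TW

theorem mean_rep (F : ℕ → ℕ) (d : ℕ) (hF : Rep F d) :
    ∀ ε : ℝ, 0 < ε → ∃ n₀ : ℕ, ∀ n : ℕ, n₀ ≤ n →
      |∑ p ∈ prm 0 n, (F p : ℝ) * (Real.log (p : ℝ) / (p : ℝ)) - Real.log n| ≤
        ε * Real.log n := by
  classical
  obtain ⟨A, K, _, _, _, φ, hfin, hinj, hden, -, hcard⟩ := hF
  obtain ⟨N, hN0, hN⟩ := card_hom_ext A K φ hfin hinj hden
  have hFd : ∀ p : ℕ, p.Prime → ¬ p ∣ N → F p = (d1 K p).card := by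
    intro p hp hpN
    rw [← hcard p hp, hN p hp hpN, card_hom_eq K p hp]
  intro ε hε
  obtain ⟨n₁, hn₁⟩ := mertens_d1 K (ε / 2) (by positivity)
  obtain ⟨n₂, hn₂⟩ := mertens_up K (ε / 2) (by positivity)
  set B : ℝ := ∑ p ∈ Finset.range (N + 1),
    |((F p : ℝ) - ((d1 K p).card : ℝ)) * (Real.log (p : ℝ) / (p : ℝ))| with hB
  have hlim : ∀ᶠ n : ℕ in Filter.atTop, 2 * B / ε ≤ Real.log (n : ℝ) :=
    (Real.tendsto_log_atTop.comp tendsto_natCast_atTop_atTop).eventually_ge_atTop _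
  obtain ⟨n₃, hn₃⟩ := Filter.eventually_atTop.mp hlim
  refine ⟨max n₁ (max n₂ n₃), fun n hn => ?_⟩
  have h1 := hn₁ n (le_trans (le_max_left _ _) hn)
  have h2 := hn₂ n (le_trans (le_trans (le_max_left _ _) (le_max_right _ _)) hn)
  have h3 := hn₃ n (le_trans (le_trans (le_max_right _ _) (le_max_right _ _)) hn)
  have hdiff : |∑ p ∈ prm 0 n, (F p : ℝ) * (Real.log (p : ℝ) / (p : ℝ)) -
      ∑ p ∈ prm 0 n, ((d1 K p).card : ℝ) * Real.log (p : ℝ) / (p : ℝ)| ≤ B := by
    rw [← Finset.sum_sub_distrib]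
    refine (Finset.abs_sum_le_sum_abs _ _).trans ?_
    have hrew : ∀ p ∈ prm 0 n, |(F p : ℝ) * (Real.log (p : ℝ) / (p : ℝ)) -
        ((d1 K p).card : ℝ) * Real.log (p : ℝ) / (p : ℝ)| =
        |((F p : ℝ) - ((d1 K p).card : ℝ)) * (Real.log (p : ℝ) / (p : ℝ))| := by
      intro p _
      congr 1
      ring
    rw [Finset.sum_congr rfl hrew]
    rw [← Finset.sum_filter_add_sum_filter_not (prm 0 n) (fun p => p ∣ N)]
    have hz : ∑ p ∈ (prm 0 n).filter (fun p => ¬ p ∣ N),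
        |((F p : ℝ) - ((d1 K p).card : ℝ)) * (Real.log (p : ℝ) / (p : ℝ))| = 0 := by
      refine Finset.sum_eq_zero fun p hp => ?_
      rw [Finset.mem_filter, mem_prm] at hp
      rw [hFd p hp.1.2.2 hp.2]
      simp
    rw [hz, add_zero]
    refine Finset.sum_le_sum_of_subset_of_nonneg ?_ fun p _ _ => abs_nonneg _
    intro p hp
    rw [Finset.mem_filter] at hp
    rw [Finset.mem_range]
    exact Nat.lt_succ_of_le (Nat.le_of_dvd (Nat.pos_of_ne_zero hN0) hp.2)
  have h4 : B ≤ ε / 2 * Real.log n := by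
    rw [div_le_iff₀ hε] at h3
    linarith
  rw [abs_le] at hdiff ⊢
  constructor
  · linarith [hdiff.1]
  · linarith [hdiff.2]

end Pool.Agent.Helper1.SP
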