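import Mathlib

/-!
# SP-MOMENT: from mixed moments to a small proportion

Proof.  Put `c l = 1 / (2 l)`.  For every `p`, `∏_{l ∈ L} (1 - c l * N l p)
= ∑_{S ⊆ L} (-1)^|S| (∏_{l ∈ S} c l) (∏_{l ∈ S} N l p)` (`Finset.prod_one_sub`..., or
`Finset.prod_add`/`Finset.prod_sub` with powersets), so by `hmom` (used with a small `ε'` for all of
the finitely many `S ⊆ L`, `∏_{l ∈ S} c l ≤ 1`)
`∑_{p ∈ P n} ∏_{l ∈ L} (1 - c l N l p) w p ≤ (∏_{l ∈ L} (1 - c l) + 2^|L| ε') ℓ n`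
(the same expansion with `N = 1`).  Every factor `1 - c l N l p` is in `[1/2, 1]` (`N l p ≤ l`),
and it is `1` if `N l p = 0`; so for `p ∈ E` the product is at least `2^(-T)`, and it is `≥ 0` for all
`p`.  Hence `∑_{p ∈ P n, p ∈ E} w p ≤ 2^T ∑_{p ∈ P n} ∏_{l ∈ L} (1 - c l N l p) w p`.
-/

set_option autoImplicit false

namespace Pool.Agent.Helper1.SP

private theorem expand (L : Finset ℕ) (c : ℕ → ℝ) (N : ℕ → ℕ → ℕ) (P : Finset ℕ) (w : ℕ → ℝ) :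
    ∑ p ∈ P, (∏ l ∈ L, (1 - c l * (N l p : ℝ))) * w p =
      ∑ S ∈ L.powerset, (∏ l ∈ S, (-c l)) * ∑ p ∈ P, ((∏ l ∈ S, N l p : ℕ) : ℝ) * w p := by
  have h1 : ∀ p ∈ P, (∏ l ∈ L, (1 - c l * (N l p : ℝ))) * w p =
      ∑ S ∈ L.powerset, (∏ l ∈ S, (-c l)) * (((∏ l ∈ S, N l p : ℕ) : ℝ) * w p) := by
    intro p _
    have h2 : ∏ l ∈ L, (1 - c l * (N l p : ℝ)) = ∏ l ∈ L, (1 + (-c l) * (N l p : ℝ)) :=
      Finset.prod_congr rfl fun l _ => by ring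
    rw [h2, Finset.prod_one_add, Finset.sum_mul]
    refine Finset.sum_congr rfl fun S _ => ?_
    rw [Finset.prod_mul_distrib, Nat.cast_prod]
    ring
  rw [Finset.sum_congr rfl h1, Finset.sum_comm]
  exact Finset.sum_congr rfl fun S _ => by rw [Finset.mul_sum]

theorem small_of_moments (L : Finset ℕ) (hL : ∀ l ∈ L, 1 ≤ l) (N : ℕ → ℕ → ℕ)
    (P : ℕ → Finset ℕ) (hN : ∀ n, ∀ p ∈ P n, ∀ l ∈ L, N l p ≤ l) (w : ℕ → ℝ)
    (hw : ∀ p, 0 ≤ w p) (lg : ℕ → ℝ) (hlg : ∀ n, 0 ≤ lg n)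
    (hmom : ∀ S ⊆ L, ∀ ε : ℝ, 0 < ε → ∃ n₀ : ℕ, ∀ n : ℕ, n₀ ≤ n →
      |∑ p ∈ P n, ((∏ l ∈ S, N l p : ℕ) : ℝ) * w p - lg n| ≤ ε * lg n)
    (E : Set ℕ) (T : ℕ)
    (hE : ∀ n, ∀ p ∈ P n, p ∈ E → (L.filter (fun l => N l p ≠ 0)).card ≤ T)
    [DecidablePred (· ∈ E)] :
    ∀ ε : ℝ, 0 < ε → ∃ n₀ : ℕ, ∀ n : ℕ, n₀ ≤ n →
      ∑ p ∈ (P n).filter (· ∈ E), w p ≤
        (2 ^ T * ∏ l ∈ L, (1 - 1 / (2 * (l : ℝ))) + ε) * lg n := by
  intro ε hε
  set c : ℕ → ℝ := fun l => 1 / (2 * (l : ℝ)) with hc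
  have hc0 : ∀ l ∈ L, 0 ≤ c l ∧ c l ≤ 1 := by
    intro l hl
    have h1 : (1 : ℝ) ≤ l := by exact_mod_cast hL l hl
    refine ⟨by positivity, ?_⟩
    rw [hc]
    simp only
    rw [div_le_one (by linarith)]
    linarith
  set ε' : ℝ := ε / (2 ^ T * 2 ^ L.card) with hε'
  have hε'0 : 0 < ε' := by positivity
  have hmom' : ∀ S : Finset ℕ, ∃ n₀ : ℕ, S ⊆ L → ∀ n : ℕ, n₀ ≤ n →
      |∑ p ∈ P n, ((∏ l ∈ S, N l p : ℕ) : ℝ) * w p - lg n| ≤ ε' * lg n := by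
    intro S
    by_cases hS : S ⊆ L
    · obtain ⟨n₀, hn₀⟩ := hmom S hS ε' hε'0
      exact ⟨n₀, fun _ => hn₀⟩
    · exact ⟨0, fun h => absurd h hS⟩
  choose n0 hn0 using hmom'
  refine ⟨L.powerset.sup n0, ?_⟩
  intro n hn
  have hn' : ∀ S ∈ L.powerset,
      |∑ p ∈ P n, ((∏ l ∈ S, N l p : ℕ) : ℝ) * w p - lg n| ≤ ε' * lg n := by
    intro S hS
    exact hn0 S (Finset.mem_powerset.mp hS) n ((Finset.le_sup hS).trans hn)
  -- factors
  have hfac : ∀ p ∈ P n, ∀ l ∈ L, 1 / 2 ≤ 1 - c l * (N l p : ℝ) := by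
    intro p hp l hl
    have h1 : (1 : ℝ) ≤ l := by exact_mod_cast hL l hl
    have h2 : (N l p : ℝ) ≤ l := by exact_mod_cast hN n p hp l hl
    have h3 : c l * (N l p : ℝ) ≤ 1 / 2 := by
      rw [hc]
      simp only
      rw [div_mul_eq_mul_div, one_mul, div_le_div_iff₀ (by linarith) (by norm_num)]
      linarith
    linarith
  have hF0 : ∀ p ∈ P n, 0 ≤ ∏ l ∈ L, (1 - c l * (N l p : ℝ)) := by
    intro p hp
    exact Finset.prod_nonneg fun l hl => by linarith [hfac p hp l hl]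
  have hFE : ∀ p ∈ P n, p ∈ E → (1 / 2 : ℝ) ^ T ≤ ∏ l ∈ L, (1 - c l * (N l p : ℝ)) := by
    intro p hp hpE
    rw [← Finset.prod_filter_mul_prod_filter_not L (fun l => N l p ≠ 0)]
    have h1 : ∏ l ∈ L.filter (fun l => ¬ N l p ≠ 0), (1 - c l * (N l p : ℝ)) = 1 := by
      refine Finset.prod_eq_one fun l hl => ?_
      rw [Finset.mem_filter, not_not] at hl
      rw [hl.2]
      simp
    rw [h1, mul_one]
    have h2 : (1 / 2 : ℝ) ^ (L.filter (fun l => N l p ≠ 0)).card ≤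
        ∏ l ∈ L.filter (fun l => N l p ≠ 0), (1 - c l * (N l p : ℝ)) := by
      rw [← Finset.prod_const]
      exact Finset.prod_le_prod (fun _ _ => by norm_num)
        (fun l hl => hfac p hp l (Finset.mem_filter.mp hl).1)
    exact (pow_le_pow_of_le_one (by norm_num) (by norm_num) (hE n p hp hpE)).trans h2
  -- upper bound of the weighted sum
  have hup : ∑ p ∈ P n, (∏ l ∈ L, (1 - c l * (N l p : ℝ))) * w p ≤
      (∏ l ∈ L, (1 - c l) + 2 ^ L.card * ε') * lg n := by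
    rw [expand]
    have h1 : ∀ S ∈ L.powerset,
        (∏ l ∈ S, (-c l)) * ∑ p ∈ P n, ((∏ l ∈ S, N l p : ℕ) : ℝ) * w p ≤
        (∏ l ∈ S, (-c l)) * lg n + ε' * lg n := by
      intro S hS
      have h2 := hn' S hS
      have h3 : |∏ l ∈ S, (-c l)| ≤ 1 := by
        rw [Finset.abs_prod]
        refine Finset.prod_le_one (fun _ _ => abs_nonneg _) fun l hl => ?_
        have := hc0 l (Finset.mem_powerset.mp hS hl)
        rw [abs_neg, abs_of_nonneg this.1]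
        exact this.2
      have h4 : (∏ l ∈ S, (-c l)) *
          (∑ p ∈ P n, ((∏ l ∈ S, N l p : ℕ) : ℝ) * w p - lg n) ≤ ε' * lg n := by
        refine (le_abs_self _).trans ?_
        rw [abs_mul]
        calc |∏ l ∈ S, (-c l)| * |∑ p ∈ P n, ((∏ l ∈ S, N l p : ℕ) : ℝ) * w p - lg n|
            ≤ 1 * (ε' * lg n) := mul_le_mul h3 h2 (abs_nonneg _) zero_le_one
          _ = ε' * lg n := one_mul _
      linarith
    refine (Finset.sum_le_sum h1).trans ?_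
    rw [Finset.sum_add_distrib, ← Finset.sum_mul, Finset.sum_const, Finset.card_powerset,
      nsmul_eq_mul]
    have h5 : ∑ S ∈ L.powerset, ∏ l ∈ S, (-c l) = ∏ l ∈ L, (1 - c l) := by
      rw [← Finset.prod_one_add]
      exact Finset.prod_congr rfl fun l _ => by ring
    rw [h5]
    push_cast
    linarith
  -- conclusion
  have h6 : ∑ p ∈ (P n).filter (· ∈ E), w p ≤
      ∑ p ∈ (P n).filter (· ∈ E), 2 ^ T * ((∏ l ∈ L, (1 - c l * (N l p : ℝ))) * w p) := by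
    refine Finset.sum_le_sum fun p hp => ?_
    rw [Finset.mem_filter] at hp
    have h7 := mul_le_mul_of_nonneg_right (hFE p hp.1 hp.2) (hw p)
    have h8 := mul_le_mul_of_nonneg_left h7 (by positivity : (0 : ℝ) ≤ 2 ^ T)
    have h9 : (2 : ℝ) ^ T * ((1 / 2) ^ T * w p) = w p := by
      rw [← mul_assoc, ← mul_pow]
      norm_num
    rw [h9] at h8
    exact h8
  have h10 : ∑ p ∈ (P n).filter (· ∈ E), 2 ^ T * ((∏ l ∈ L, (1 - c l * (N l p : ℝ))) * w p) ≤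
      ∑ p ∈ P n, 2 ^ T * ((∏ l ∈ L, (1 - c l * (N l p : ℝ))) * w p) := by
    refine Finset.sum_le_sum_of_subset_of_nonneg (Finset.filter_subset _ _) fun p hp _ => ?_
    exact mul_nonneg (by positivity) (mul_nonneg (hF0 p hp) (hw p))
  have h14 : ∑ p ∈ P n, 2 ^ T * ((∏ l ∈ L, (1 - c l * (N l p : ℝ))) * w p) =
      2 ^ T * ∑ p ∈ P n, (∏ l ∈ L, (1 - c l * (N l p : ℝ))) * w p :=
    (Finset.mul_sum _ _ _).symm
  have h11 : (2 : ℝ) ^ T * ∑ p ∈ P n, (∏ l ∈ L, (1 - c l * (N l p : ℝ))) * w p ≤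
      2 ^ T * ((∏ l ∈ L, (1 - c l) + 2 ^ L.card * ε') * lg n) :=
    mul_le_mul_of_nonneg_left hup (by positivity)
  have h12 : (2 : ℝ) ^ T * ((∏ l ∈ L, (1 - c l) + 2 ^ L.card * ε') * lg n) =
      (2 ^ T * ∏ l ∈ L, (1 - 1 / (2 * (l : ℝ))) + ε) * lg n := by
    have h13 : (2 : ℝ) ^ T * (2 ^ L.card * ε') = ε := by
      rw [hε']
      field_simp
    rw [← mul_assoc, mul_add, h13]
  rw [← h12]
  exact h6.trans (h10.trans (h14.le.trans h11))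

end Pool.Agent.Helper1.SP
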