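import Pool.Agent.Helper1.SP.Step
import Pool.Agent.Helper1.SP.Mert
import Pool.Agent.Helper1.SP.Fact
import Pool.Agent.Helper1.SP.Moment
import Pool.Agent.Helper1.SP.Eul

/-!
# SP-MAIN: the primes missing at most `M` residues have density zero (weights `log p / p`)
-/

set_option autoImplicit false

namespace Pool.Agent.Helper1.SP

open Pool.Agent.Helper83.TW Filter Topology

theorem main_bound (M : ℕ) (ε : ℝ) (hε : 0 < ε) : ∃ n₀ : ℕ, ∀ n : ℕ, n₀ ≤ n →
    ∑ p ∈ (Finset.Icc 1 n).filter (fun p => p.Prime ∧ p ≤ (V p).ncard + 1 + M),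
      Real.log (p : ℝ) / (p : ℝ) ≤ ε * Real.log n := by
  classical
  obtain ⟨L, hLp, hL⟩ := small_product ((M + 1) ^ 2) (ε / 2) (by positivity)
  have hL1 : ∀ l ∈ L, 1 ≤ l := fun l hl => (hLp l hl).one_lt.le
  obtain ⟨n₀, hn₀⟩ := small_of_moments L hL1 (fun l p => rho (fk l) p) (fun n => prm 0 n)
    (fun n p hp l hl => rho_le p l (mem_prm.1 hp).2.2 (hL1 l hl))
    (fun p => Real.log (p : ℝ) / (p : ℝ))
    (fun p => div_nonneg (Real.log_natCast_nonneg p) (Nat.cast_nonneg p))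
    (fun n => Real.log (n : ℝ)) (fun n => Real.log_natCast_nonneg n)
    (fun S hS => mean_rep _ _ (rep_prod S (fun l hl => hLp l (hS hl))))
    {p | p ≤ (V p).ncard + 1 + M} ((M + 1) ^ 2)
    (fun n p hp hE => few_roots p M (mem_prm.1 hp).2.2 hE L hL1) (ε / 2) (by positivity)
  refine ⟨n₀, fun n hn => ?_⟩
  have h1 := hn₀ n hn
  have h2 : (Finset.Icc 1 n).filter (fun p => p.Prime ∧ p ≤ (V p).ncard + 1 + M) =
      (prm 0 n).filter (· ∈ {p | p ≤ (V p).ncard + 1 + M}) := by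
    ext p
    simp only [Finset.mem_filter, Finset.mem_Icc, mem_prm, Set.mem_setOf_eq]
    constructor
    · rintro ⟨⟨a, b⟩, c, d⟩
      exact ⟨⟨by omega, b, c⟩, d⟩
    · rintro ⟨⟨a, b, c⟩, d⟩
      exact ⟨⟨by omega, b⟩, c, d⟩
  rw [h2]
  refine h1.trans ?_
  have h3 := Real.log_natCast_nonneg n
  nlinarith

theorem main (M : ℕ) :
    Tendsto (fun n : ℕ =>
      (∑ p ∈ (Finset.Icc 1 n).filter (fun p => p.Prime ∧ p ≤ (V p).ncard + 1 + M),
        Real.log (p : ℝ) / (p : ℝ)) / Real.log n) atTop (𝓝 0) := by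
  rw [Metric.tendsto_atTop]
  intro ε hε
  obtain ⟨n₀, hn₀⟩ := main_bound M (ε / 2) (by positivity)
  refine ⟨max n₀ 2, fun n hn => ?_⟩
  have h1 := hn₀ n ((le_max_left _ _).trans hn)
  have h2 : 0 < Real.log (n : ℝ) :=
    Real.log_pos (by exact_mod_cast (lt_of_lt_of_le (by norm_num) ((le_max_right _ _).trans hn)))
  rw [Real.dist_eq, sub_zero, abs_of_nonneg]
  · rw [div_lt_iff₀ h2]
    nlinarith
  · refine div_nonneg (Finset.sum_nonneg fun p _ => ?_) h2.le
    exact div_nonneg (Real.log_natCast_nonneg p) (Nat.cast_nonneg p)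

end Pool.Agent.Helper1.SP
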