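import Pool.Agent.Helper1.SP.Adj
import Pool.Agent.Helper1.SP.HomAdj
import Pool.Agent.Helper1.SP.IrrK
import Pool.Agent.Helper1.SP.Irr

/-!
# SP-STEP: products of numbers of roots are represented by number fields

`rep_one`: `A = ℤ`, `K = ℚ`.  `rep_step`: adjoin a root of `g` to `A` and `K`
(`adj_inj`, `card_hom_adj`, `adj_finite`, `irr_of_coprime`, `adj_numberField`).
`rep_prod`: induction over the finite set of primes.
-/

set_option autoImplicit false

namespace Pool.Agent.Helper1.SP

open Polynomial

theorem rep_one : Rep (fun _ => 1) 1 := by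
  refine ⟨ℤ, ℚ, inferInstance, inferInstance, inferInstance, Int.castRingHom ℚ, inferInstance,
    fun a b h => by simpa using h, fun z => ⟨z.num, z.den, z.den_nz, ?_⟩, ?_, fun p hp => ?_⟩
  · rw [mul_comm, eq_intCast]
    exact Rat.mul_den_eq_num z
  · exact Module.finrank_self ℚ
  · haveI : Nonempty (ℤ →+* ZMod p) := ⟨Int.castRingHom _⟩
    exact Nat.card_unique

theorem rep_step (F : ℕ → ℕ) (d : ℕ) (hF : Rep F d) (g : ℤ[X]) (hg : g.Monic)
    (hirr : Irreducible (g.map (Int.castRingHom ℚ))) (hco : Nat.Coprime d g.natDegree) :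
    Rep (fun p => F p * rho g p) (d * g.natDegree) := by
  obtain ⟨A, K, _, _, _, φ, hfin, hinj, hden, hrank, hcard⟩ := hF
  have hdeg : (g.map (Int.castRingHom ℚ)).natDegree = g.natDegree :=
    hg.natDegree_map _
  have hirrK : Irreducible (g.map (Int.castRingHom K)) :=
    irr_of_coprime K g hirr (by rw [hrank, hdeg]; exact hco)
  haveI : Fact (Irreducible (g.map (Int.castRingHom K))) := ⟨hirrK⟩
  obtain ⟨ψ, hψ, hψden⟩ := adj_inj A K φ hinj hden g hg
  obtain ⟨hNF, hNFrank⟩ := adj_numberField K g hg
  refine ⟨AdjoinRoot (g.map (Int.castRingHom A)), AdjoinRoot (g.map (Int.castRingHom K)),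
    inferInstance, inferInstance, hNF, ψ, adj_finite A hfin g hg, hψ, hψden, ?_, fun p hp => ?_⟩
  · rw [hNFrank, hrank]
  · rw [card_hom_adj A g p hp, hcard p hp]

theorem rep_prod (S : Finset ℕ) (hS : ∀ l ∈ S, l.Prime) :
    Rep (fun p => ∏ l ∈ S, rho (fk l) p) (∏ l ∈ S, l) := by
  classical
  induction S using Finset.induction_on with
  | empty => simpa using rep_one
  | insert l S hl ih =>
    have hlp := hS l (Finset.mem_insert_self l S)
    have ih' := ih fun m hm => hS m (Finset.mem_insert_of_mem hm)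
    have hco : Nat.Coprime (∏ m ∈ S, m) (fk l).natDegree := by
      rw [fk_natDegree]
      refine Nat.Coprime.prod_left fun m hm => ?_
      rw [Nat.coprime_primes (hS m (Finset.mem_insert_of_mem hm)) hlp]
      rintro rfl
      exact hl hm
    have h := rep_step _ _ ih' (fk l) (fk_monic l hlp.one_le) (fk_irr l hlp.one_le) hco
    rw [fk_natDegree] at h
    have h1 : (fun p => ∏ m ∈ insert l S, rho (fk m) p) =
        fun p => (∏ m ∈ S, rho (fk m) p) * rho (fk l) p := by
      funext p
      rw [Finset.prod_insert hl, mul_comm]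
    rw [h1, Finset.prod_insert hl, mul_comm l]
    exact h

end Pool.Agent.Helper1.SP
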